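import Pool.Agent.H74.BTL.Targets

/-!
# Translates are almost independent (helper40, MP_60ff71_an): module INJ
-/

set_option autoImplicit false

open scoped ENNReal RealInnerProductSpace
open Filter Topology

namespace Pool.Agent.H40.BTL

open Pool.Agent.H74.BTL

universe u

/-- the projection of `v` is shorter than `v`, if some vector of norm at most `R` is orthogonal to
the subspace and has a large inner product with `v` -/
theorem proj_short {E : Type u} [NormedAddCommGroup E] [InnerProductSpace ℝ E] [CompleteSpace E]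
    (K : Submodule ℝ E) (hK : IsClosed (K : Set E)) (v w : E) (hv : ‖v‖ = 1)
    (hw : ∀ a ∈ K, ⟪w, a⟫ = (0 : ℝ)) (hw0 : w ≠ 0) :
    ‖PR K v‖ ^ 2 ≤ 1 - ⟪w, v⟫ ^ 2 / ‖w‖ ^ 2 := by
  have hcl : K.topologicalClosure = K := hK.submodule_topologicalClosure_eq
  have h1 := Submodule.norm_sq_eq_add_norm_sq_starProjection v K.topologicalClosure
  have h2 := K.topologicalClosure.starProjection_add_starProjection_orthogonal v
  have h3 : ⟪w, K.topologicalClosure.starProjection v⟫ = (0 : ℝ) := by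
    apply hw
    exact hcl.le (K.topologicalClosure.starProjection_apply_mem v)
  have h5 : ⟪w, v⟫ = ⟪w, K.topologicalClosureᗮ.starProjection v⟫ := by
    conv_lhs => rw [← h2]
    rw [inner_add_right, h3, zero_add]
  have h6 : ⟪w, v⟫ ^ 2 ≤ ‖w‖ ^ 2 * ‖K.topologicalClosureᗮ.starProjection v‖ ^ 2 := by
    rw [h5, ← mul_pow, sq_le_sq]
    refine (abs_real_inner_le_norm _ _).trans ?_
    exact le_abs_self _
  have h7 : 0 < ‖w‖ ^ 2 := by
    have := norm_pos_iff.2 hw0
    positivity
  have h8 : ⟪w, v⟫ ^ 2 / ‖w‖ ^ 2 ≤ ‖K.topologicalClosureᗮ.starProjection v‖ ^ 2 := by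
    rw [div_le_iff₀ h7]
    linarith
  rw [hv, one_pow] at h1
  unfold PR
  linarith

/-- MODULE INJ: the translates of a nonzero square summable function are almost independent -/
theorem pf_INJ (h1 : T_TRI.{u}) : T_INJ.{u} := by
  intro G _ ξ hξ
  obtain ⟨x₀, hx₀⟩ : ∃ x, ξ x ≠ 0 := by
    by_contra hcon
    push Not at hcon
    apply hξ
    ext x
    exact hcon x
  -- the translates
  let U : G → L2 G := fun x => cm (Equiv.mulLeft x).toEmbedding ξ
  have hU : ∀ x g, (U x : G → ℝ) g = ξ (x * g) := fun x g => rfl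
  have hUn : ∀ x, ‖U x‖ = ‖ξ‖ := fun x => norm_cm _ ξ
  have hξn : 0 < ‖ξ‖ ^ 2 := by
    have := norm_pos_iff.2 hξ
    positivity
  set K : Submodule ℝ (L2 G) := (Submodule.span ℝ (Set.range U))ᗮ with hKdef
  have hKc : IsClosed (K : Set (L2 G)) := Submodule.isClosed_orthogonal _
  have hKU : ∀ x, ∀ a ∈ K, ⟪U x, a⟫ = (0 : ℝ) := fun x a ha =>
    (Submodule.mem_orthogonal _ _).1 ha _ (Submodule.subset_span ⟨x, rfl⟩)
  have hc : ∀ g : G, ‖PR K (dl g)‖ ^ 2 ≤ 1 - ξ x₀ ^ 2 / ‖ξ‖ ^ 2 := by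
    intro g
    have h2 := proj_short K hKc (dl g) (U (x₀ * g⁻¹)) (norm_dl g) (hKU _) (by
      intro h0
      have h3 := hUn (x₀ * g⁻¹)
      rw [h0, norm_zero] at h3
      rw [← h3] at hξn
      norm_num at hξn)
    rw [inner_dl_right, hU, inv_mul_cancel_right, hUn] at h2
    exact h2
  refine ⟨ξ x₀ ^ 2 / ‖ξ‖ ^ 2, by positivity, fun B => ?_⟩
  classical
  let Ψ : L2 G →ₗ[ℝ] (G → ℝ) :=
    LinearMap.pi fun x => (innerSL ℝ (U x) : L2 G →L[ℝ] ℝ).toLinearMap
  have hΨ : ∀ a x, Ψ a x = ⟪U x, a⟫ := fun a x => rfl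
  set S : Submodule ℝ (L2 G) := Submodule.span ℝ (dl '' (B : Set G)) with hS
  have hmap : Submodule.span ℝ ((fun (g x : G) => ξ (x * g)) '' (B : Set G)) = S.map Ψ := by
    rw [hS, Submodule.map_span, Set.image_image]
    have h2 : (fun g : G => Ψ (dl g)) = fun (g x : G) => ξ (x * g) := by
      funext g x
      rw [hΨ, inner_dl_right, hU]
    rw [h2]
  have hfin : FiniteDimensional ℝ S :=
    FiniteDimensional.span_of_finite ℝ (B.finite_toSet.image dl)
  have hrn := LinearMap.finrank_range_add_finrank_ker (Ψ.domRestrict S)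
  rw [LinearMap.range_domRestrict] at hrn
  have hScard : Module.finrank ℝ S = B.card := by
    have hli : LinearIndependent ℝ (fun g : B => (dl (g : G) : L2 G)) :=
      orthonormal_dl.linearIndependent.comp (fun g : B => (g : G)) Subtype.val_injective
    have h2 := finrank_span_eq_card hli
    rw [Fintype.card_coe] at h2
    rw [hS, Set.image_eq_range]
    exact h2
  -- the kernel
  have hker : (Module.finrank ℝ (LinearMap.ker (Ψ.domRestrict S)) : ℝ) ≤
      ∑ g ∈ B, ‖PR K (dl g)‖ ^ 2 := by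
    rw [← Submodule.finrank_map_subtype_eq]
    refine h1 (L2 G) G dl B K _ orthonormal_dl ?_ ?_
    · rintro _ ⟨a, ha, rfl⟩
      apply K.le_topologicalClosure
      have h2 : Ψ (a : L2 G) = 0 := ha
      rw [hKdef, Submodule.mem_orthogonal]
      intro w hw
      induction hw using Submodule.span_induction with
      | mem w hw =>
        obtain ⟨x, rfl⟩ := hw
        exact congrFun h2 x
      | zero => rw [inner_zero_left]
      | add x y _ _ h3 h4 => rw [inner_add_left, h3, h4, add_zero]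
      | smul c x _ h3 => rw [real_inner_smul_left, h3, mul_zero]
    · exact Submodule.map_subtype_le S _
  have hsum : ∑ g ∈ B, ‖PR K (dl g)‖ ^ 2 ≤ B.card * (1 - ξ x₀ ^ 2 / ‖ξ‖ ^ 2) := by
    have h2 := Finset.sum_le_card_nsmul B (fun g => ‖PR K (dl g)‖ ^ 2) _ fun g _ => hc g
    rwa [nsmul_eq_mul] at h2
  rw [hmap]
  have hrn2 : (Module.finrank ℝ (S.map Ψ) : ℝ) +
      Module.finrank ℝ (LinearMap.ker (Ψ.domRestrict S)) = B.card := by
    rw [← hScard]
    exact_mod_cast hrn
  linarith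

end Pool.Agent.H40.BTL
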