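import Pool.Agent.H74.BTL.Targets

/-!
# A finite subgroup of maximal order (helper40, MP_60ff71_an): module KMX
-/

set_option autoImplicit false

open scoped ENNReal RealInnerProductSpace
open Filter Topology

namespace Pool.Agent.H40.BTL

open Pool.Agent.H74.BTL

universe u

/-- MODULE KMX: a finite subgroup of maximal order with non-amenable normalizer -/
theorem pf_KMX : T_KMX.{u} := by
  classical
  intro G _ n₀ hNA hb
  let P : ℕ → Prop := fun n => ∃ K : Subgroup G, Finite K ∧
    NA (Subgroup.normalizer (K : Set G)) ∧ Nat.card K = n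
  have h1 : P 1 := by
    refine ⟨⊥, inferInstance, ?_, Subgroup.card_bot⟩
    have h2 : Subgroup.normalizer ((⊥ : Subgroup G) : Set G) = ⊤ :=
      Subgroup.normalizer_eq_top_iff.2 inferInstance
    rw [h2]
    exact hNA
  have hle : ∀ n, P n → n ≤ n₀ := by
    rintro n ⟨K, hK, -, rfl⟩
    exact hb K hK
  obtain ⟨K, hK, hN, hc⟩ : P (Nat.findGreatest P n₀) := Nat.findGreatest_spec (hle 1 h1) h1
  refine ⟨K, hK, hN, fun K' hK' hlt hN' => ?_⟩
  have h3 : P (Nat.card K') := ⟨K', hK', hN', rfl⟩
  have h4 := Nat.le_findGreatest (P := P) (hle _ h3) h3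
  omega

end Pool.Agent.H40.BTL
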