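import Pool.Agent.H74.BTL.Targets

/-!
# The torsion relation (helper40, MP_60ff71_an): module TOR
-/

set_option autoImplicit false

open scoped ENNReal RealInnerProductSpace
open Filter Topology

namespace Pool.Agent.H40.BTL

open Pool.Agent.H74.BTL

universe u

theorem coc_one {G : Type u} [Group G] (b : G → L2 G)
    (hb : ∀ g k, b (g * k) = b g + rt g (b k)) : b 1 = 0 := by
  have h := hb 1 1
  rw [mul_one, rt_one] at h
  exact left_eq_add.1 h

theorem coc_pow {G : Type u} [Group G] (b : G → L2 G)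
    (hb : ∀ g k, b (g * k) = b g + rt g (b k)) (g : G) (n : ℕ) :
    b (g ^ n) = ∑ k ∈ Finset.range n, rt (g ^ k) (b g) := by
  induction n with
  | zero => rw [pow_zero, coc_one b hb, Finset.sum_range_zero]
  | succ n ih => rw [pow_succ, hb, ih, Finset.sum_range_succ]

open Classical in
/-- MODULE TOR: the torsion relation -/
theorem pf_TOR : T_TOR.{u} := by
  intro G _ K b m g hb hm hg hK
  have h1 : ∑ k ∈ Finset.range m, ⟪b g, rt (g ^ k) (b g)⟫ = (0 : ℝ) := by
    rw [← inner_sum, ← coc_pow b hb, hg, coc_one b hb, inner_zero_right]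
  rw [← Finset.sum_filter_add_sum_filter_not (Finset.range m) (fun k => g ^ k ∉ K)] at h1
  have h2 : ‖b g‖ ^ 2 ≤ ∑ k ∈ (Finset.range m).filter (fun k => ¬ g ^ k ∉ K),
      ⟪b g, rt (g ^ k) (b g)⟫ := by
    have h3 : ∀ k ∈ (Finset.range m).filter (fun k => ¬ g ^ k ∉ K),
        ⟪b g, rt (g ^ k) (b g)⟫ = ‖b g‖ ^ 2 := by
      intro k hk
      rw [hK _ (not_not.1 (Finset.mem_filter.1 hk).2), real_inner_self_eq_norm_sq]
    rw [Finset.sum_congr rfl h3, Finset.sum_const, nsmul_eq_mul]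
    have h4 : 1 ≤ ((Finset.range m).filter (fun k => ¬ g ^ k ∉ K)).card := by
      rw [Nat.one_le_iff_ne_zero, ← Nat.pos_iff_ne_zero, Finset.card_pos]
      refine ⟨0, Finset.mem_filter.2 ⟨Finset.mem_range.2 hm, ?_⟩⟩
      rw [not_not, pow_zero]
      exact K.one_mem
    have h5 : (1 : ℝ) ≤ ((Finset.range m).filter (fun k => ¬ g ^ k ∉ K)).card := by
      exact_mod_cast h4
    nlinarith [sq_nonneg ‖b g‖]
  have h6 : -∑ k ∈ (Finset.range m).filter (fun k => g ^ k ∉ K), ⟪b g, rt (g ^ k) (b g)⟫ ≤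
      ∑ k ∈ (Finset.range m).filter (fun k => g ^ k ∉ K), |⟪b g, rt (g ^ k) (b g)⟫| := by
    rw [← Finset.sum_neg_distrib]
    exact Finset.sum_le_sum fun k _ => neg_le_abs _
  linarith

end Pool.Agent.H40.BTL
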