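import Pool.Agent.H74.BTL.Targets

/-!
# The upper bound (helper40, MP_60ff71_an): module UPP
-/

set_option autoImplicit false

open scoped ENNReal RealInnerProductSpace
open Filter Topology

namespace Pool.Agent.H40.BTL

open Pool.Agent.H74.BTL
open Pool.Agent.H62.LP (Lit)

universe u

section Ext

variable {G : Type u} {I : Type}

/-- extension by zero -/
noncomputable def io (A : Type) : L2 (G × I) →L[ℝ] L2 (G × (I ⊕ A)) :=
  ContinuousLinearMap.adjoint (pin A : L2 (G × (I ⊕ A)) →L[ℝ] L2 (G × I))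

theorem inner_io (A : Type) (v : L2 (G × I)) (w : L2 (G × (I ⊕ A))) :
    ⟪io A v, w⟫ = (⟪v, pin A w⟫ : ℝ) :=
  ContinuousLinearMap.adjoint_inner_left _ _ _

theorem pin_dl_inl (A : Type) (x : G) (i : I) :
    pin A (dl (x, Sum.inl i)) = (dl (x, i) : L2 (G × I)) := by
  ext ⟨y, j⟩
  rw [pin_apply, dl_apply, dl_apply]
  by_cases h : (y, j) = (x, i)
  · rw [if_pos h, if_pos]
    rw [Prod.mk.injEq] at h ⊢
    exact ⟨h.1, congrArg _ h.2⟩
  · rw [if_neg h, if_neg]
    intro h1
    apply h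
    rw [Prod.mk.injEq, Sum.inl.injEq] at h1
    exact Prod.ext h1.1 h1.2

theorem pin_dl_inr (A : Type) (x : G) (a : A) :
    pin A (dl (x, Sum.inr a)) = (0 : L2 (G × I)) := by
  ext ⟨y, j⟩
  rw [pin_apply, dl_apply, if_neg]
  · rfl
  · intro h1
    rw [Prod.mk.injEq] at h1
    exact Sum.inl_ne_inr h1.2

theorem io_inl (A : Type) (v : L2 (G × I)) (x : G) (i : I) :
    (io A v : G × (I ⊕ A) → ℝ) (x, Sum.inl i) = v (x, i) := by
  rw [← inner_dl_right (x, Sum.inl i) (io A v), inner_io, pin_dl_inl, inner_dl_right]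

theorem io_inr (A : Type) (v : L2 (G × I)) (x : G) (a : A) :
    (io A v : G × (I ⊕ A) → ℝ) (x, Sum.inr a) = 0 := by
  rw [← inner_dl_right (x, Sum.inr a) (io A v), inner_io, pin_dl_inr, inner_zero_right]

theorem pin_io (A : Type) (v : L2 (G × I)) : pin A (io A v) = v := by
  ext ⟨x, i⟩
  rw [pin_apply, io_inl]

end Ext

theorem eqv_pin {G : Type u} [Group G] {I : Type} (A : Type) :
    Eqv (pin A : L2 (G × (I ⊕ A)) →L[ℝ] L2 (G × I)) := by
  intro g v
  ext ⟨x, i⟩
  rw [pin_apply, lt_apply, lt_apply, pin_apply]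

/-- the boundary of an extension by zero -/
theorem bd_io {G : Type u} [Group G] {I A : Type} [Fintype I] [Fintype A] (s : I → G)
    (a : A → G) (v : L2 (G × I)) : bd (Sum.elim s a) (io A v) = bd s v := by
  ext ⟨x, u⟩
  rw [bd_apply, bd_apply, Fintype.sum_sum_type]
  have h2 : ∑ α : A,
      ((io A v : G × (I ⊕ A) → ℝ) (x * (Sum.elim s a (Sum.inr α))⁻¹, Sum.inr α) -
      (io A v : G × (I ⊕ A) → ℝ) (x, Sum.inr α)) = 0 := by
    refine Finset.sum_eq_zero fun α _ => ?_
    rw [io_inr, io_inr, sub_zero]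
  rw [h2, add_zero]
  refine Finset.sum_congr rfl fun i _ => ?_
  rw [io_inl, io_inl, Sum.elim_inl]

/-- gradients in finitely many directions -/
theorem grad_ex {G : Type u} [Group G] {I : Type} [Fintype I] (s : I → G) (h : G → ℝ)
    (hx : ∀ i, ∃ ξ : L2 G, ∀ x, ξ x = h (x * s i) - h x) :
    ∃ d : L2 (G × I), ∀ x i, d (x, i) = h (x * s i) - h x := by
  choose ξ hξ using hx
  have h1 : Summable fun p : G × I => (h (p.1 * s p.2) - h p.1) ^ 2 := by
    have h2 : Summable fun p : I × G => (h (p.2 * s p.1) - h p.2) ^ 2 := by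
      refine (summable_prod_of_nonneg fun p => sq_nonneg _).2 ⟨fun i => ?_, ?_⟩
      · refine (summable_sq (ξ i)).congr fun x => ?_
        simp only
        rw [hξ]
      · exact (hasSum_fintype _).summable
    exact ((Equiv.prodComm G I).summable_iff (f := fun p : I × G =>
      (h (p.2 * s p.1) - h p.2) ^ 2)).2 h2
  exact ⟨⟨fun p : G × I => h (p.1 * s p.2) - h p.1, memL2 h1⟩, fun x i => rfl⟩

/-- MODULE UPP: the upper bound -/
theorem pf_UPP (h1 : T_ADD.{u}) (h2 : T_RNT.{u}) (h3 : T_ZDM.{u}) (h4 : T_ORT.{u})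
    (h5 : T_CMP.{u}) (h6 : T_BDF.{u}) (h7 : T_DMB.{u}) (h8 : T_EQA.{u}) : T_UPP.{u} := by
  intro G _ I A _ _ s a h dh hG hs hh hdh
  have eio : Eqv (io A : L2 (G × I) →L[ℝ] L2 (G × (I ⊕ A))) :=
    (h8 G (I ⊕ A) I).1 _ (eqv_pin A)
  obtain ⟨b1, b2, b3, -, -⟩ := h6 G (I ⊕ A) (Sum.elim s a)
  obtain ⟨-, o2, o3⟩ := h4 G I s h dh hdh
  have hs' : Subgroup.closure (Set.range (Sum.elim s a)) = ⊤ := by
    rw [eq_top_iff, ← hs]
    refine Subgroup.closure_mono ?_
    rintro _ ⟨i, rfl⟩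
    exact ⟨Sum.inl i, rfl⟩
  -- the gradient in all directions
  obtain ⟨d, hd⟩ := grad_ex (Sum.elim s a) h (fun j => h5 G I s h hs (fun i =>
    ⟨cm ⟨fun x : G => (x, i), fun x y hxy => (Prod.mk.inj hxy).1⟩ dh,
      fun x => hdh x i⟩) _)
  have hpd : pin A d = dh := by
    ext ⟨x, i⟩
    rw [pin_apply, hd, hdh, Sum.elim_inl]
  obtain ⟨p1, -, -⟩ := h4 G (I ⊕ A) (Sum.elim s a) h d hd
  -- the three invariant subspaces
  have iV2 : Pool.Agent.H74.BTL.Inv (mp (io A) (Et dh)) := by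
    intro g w hw
    obtain ⟨v, hv, rfl⟩ := mem_mp.1 hw
    exact mem_mp.2 ⟨lt g v, o3 g v hv, eio g v⟩
  have iZ : Pool.Agent.H74.BTL.Inv (kr (bd (Sum.elim s a))) := (h8 G (I ⊕ A) Unit).2.1 _ b1
  have l2 : mp (io A) (Et dh) ≤ kr (bd (Sum.elim s a)) := by
    intro w hw
    obtain ⟨v, hv, rfl⟩ := mem_mp.1 hw
    rw [mem_kr, bd_io]
    exact mem_kr.1 (o2 hh hv)
  -- the intersection
  have hbot : (Cf (Sum.elim s a)).topologicalClosure ⊓ (mp (io A) (Et dh)).topologicalClosure =
      ⊥ := by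
    rw [eq_bot_iff]
    intro v hv
    obtain ⟨hv1, hv2⟩ := Submodule.mem_inf.1 hv
    have hcl : IsClosed {w : L2 (G × (I ⊕ A)) | io A (pin A w) = w ∧
        pin A w ∈ ((Et dh).topologicalClosure : Set (L2 (G × I)))} := by
      refine IsClosed.inter (isClosed_eq ?_ continuous_id) ?_
      · exact (io A).continuous.comp (pin A).continuous
      · exact (Et dh).isClosed_topologicalClosure.preimage (pin A).continuous
    have hsub : ((mp (io A) (Et dh)).topologicalClosure : Set (L2 (G × (I ⊕ A)))) ⊆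
        {w : L2 (G × (I ⊕ A)) | io A (pin A w) = w ∧
        pin A w ∈ ((Et dh).topologicalClosure : Set (L2 (G × I)))} := by
      rw [Submodule.topologicalClosure_coe]
      refine closure_minimal ?_ hcl
      intro w hw
      obtain ⟨v, hv, rfl⟩ := mem_mp.1 hw
      rw [Set.mem_ofPred_eq, pin_io]
      exact ⟨rfl, (Et dh).le_topologicalClosure hv⟩
    obtain ⟨q1, q2⟩ := hsub hv2
    -- orthogonality
    have horth : ∀ g : G, ⟪v, lt g d⟫ = (0 : ℝ) := by
      intro g
      have hc : IsClosed {w : L2 (G × (I ⊕ A)) | ⟪w, lt g d⟫ = (0 : ℝ)} :=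
        isClosed_eq (continuous_id.inner continuous_const) continuous_const
      have hs2 : ((Cf (Sum.elim s a)).topologicalClosure : Set (L2 (G × (I ⊕ A)))) ⊆
          {w : L2 (G × (I ⊕ A)) | ⟪w, lt g d⟫ = (0 : ℝ)} := by
        rw [Submodule.topologicalClosure_coe]
        exact closure_minimal (fun w hw => p1 w hw g) hc
      exact hs2 hv1
    have he : ∀ g : G, ⟪pin A v, lt g dh⟫ = (0 : ℝ) := by
      intro g
      have e1 := horth g
      rw [← q1, inner_io, eqv_pin A g d, hpd] at e1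
      exact e1
    have he2 : ∀ w ∈ (Et dh).topologicalClosure, ⟪pin A v, w⟫ = (0 : ℝ) := by
      have hc : IsClosed {w : L2 (G × I) | ⟪pin A v, w⟫ = (0 : ℝ)} :=
        isClosed_eq (continuous_const.inner continuous_id) continuous_const
      have hs2 : ((Et dh).topologicalClosure : Set (L2 (G × I))) ⊆
          {w : L2 (G × I) | ⟪pin A v, w⟫ = (0 : ℝ)} := by
        rw [Submodule.topologicalClosure_coe]
        have key : ∀ w ∈ Submodule.span ℝ (Set.range fun g : G => lt g dh),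
            ⟪pin A v, w⟫ = (0 : ℝ) := by
          intro w hw
          induction hw using Submodule.span_induction with
          | mem w hw =>
            obtain ⟨g, rfl⟩ := hw
            exact he g
          | zero => rw [inner_zero_right]
          | add x y _ _ h1 h2 => rw [inner_add_right, h1, h2, add_zero]
          | smul c x _ h1 => rw [real_inner_smul_right, h1, mul_zero]
        exact closure_minimal (fun w hw => key w hw) hc
      exact fun w hw => hs2 hw
    have h0 : pin A v = 0 := inner_self_eq_zero.1 (he2 _ q2)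
    rw [Submodule.mem_bot, ← q1, h0, map_zero]
  have hadd := h1 G (I ⊕ A) (Cf (Sum.elim s a)) (mp (io A) (Et dh)) (kr (bd (Sum.elim s a)))
    b2 iV2 iZ hbot (b3.trans (Submodule.le_topologicalClosure _))
    (l2.trans (Submodule.le_topologicalClosure _))
  have hz := (h3 G (I ⊕ A) (Sum.elim s a)).2 hG hs'
  have hr := h2 G I (I ⊕ A) (io A) (Et dh) eio o3
  have hk : kr (io A : L2 (G × I) →L[ℝ] L2 (G × (I ⊕ A))) = ⊥ := by
    rw [eq_bot_iff]
    intro v hv
    have h0 := mem_kr.1 hv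
    rw [Submodule.mem_bot, ← pin_io A v, h0, map_zero]
  have hd0 : dm (⊥ : Submodule ℝ (L2 (G × I))) = 0 := by
    have h0 := (h7 G I).2.2.2 ⊥ ⊥ (fun v hv w hw => by
      rw [(Submodule.mem_bot ℝ).1 hv, inner_zero_left])
    rw [sup_idem] at h0
    linarith
  rw [hk, inf_bot_eq, hd0, zero_add] at hr
  rw [Fintype.card_sum] at hz
  push_cast at hz
  linarith

end Pool.Agent.H40.BTL
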